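import Pool.Agent.Lib.MP_641cb6_lc.CD.Hn
import Pool.Agent.Lib.MP_b1c768_lc.Defs
import Mathlib.LinearAlgebra.Matrix.Permanent

/-!
# The permanent: definitions and statements of the rows
-/

set_option autoImplicit false

namespace Pool.Agent.Lib.MP_b1c768_lc.PC

open Pool.Agent.Lib.MP_641cb6_lc.CD (ix mat tr TrSet pull)

/-- the matrix with the entries of the vector `x` -/
def sq {R : Type} {n : ℕ} (x : Fin (n * n) → R) : Matrix (Fin n) (Fin n) R :=
  fun i j => x (finProdFinEquiv (i, j))

/-- the graph of the permanent of `n × n` matrices: the pairs `(X, z)` with `z = per X` -/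
def PerSet (K : Type) [Field K] (n : ℕ) : Set ((Fin (n * n) → K) × K) :=
  {q | q.2 = (sq q.1).permanent}

/-- Row PATHS. All rows `i ≠ s` of `M` are, apart from the column `s`, unipotent triangular for the
order given by `ρ`; `w i` is the sum of the weights of the paths from `i` to `s`. Induction over the
number of indices: remove an index `v ≠ s` with the largest `ρ v` (the row `v` has only the entries
`1` at `v` and `w v` at `s`). -/
def PathsStatement : Prop :=
  ∀ (V : Type) [Fintype V] [DecidableEq V] (R : Type) [CommRing R] (M : Matrix V V R) (s : V)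
    (ρ : V → ℕ) (w : V → R), (∀ i, i ≠ s → M i i = 1) →
    (∀ i j, i ≠ s → j ≠ s → i ≠ j → M i j ≠ 0 → ρ i < ρ j) →
    (∀ i, i ≠ s → w i = M i s + ∑ j ∈ (Finset.univ.erase s).erase i, M i j * w j) →
    M.permanent = M s s + ∑ j ∈ Finset.univ.erase s, M s j * w j

/-- Row PRED: the trace of the product of `d` matrices of size `m` is a projection of the
permanent. Indices of the matrix: `s`, `(t, a, b)` with `t ≤ d`, `a b : Fin m`, and the rest (only
ones in the diagonal); entries `1` from `s` to `(0, a, a)`, `A_t[b, b']` from `(t, a, b)` to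
`(t + 1, a, b')`, `1` from `(d, a, a)` to `s`, `1` in the diagonal except at `s`. -/
def PRedStatement : Prop :=
  ∀ (K : Type) [Field K] (m d n : ℕ), (d + 1) * (m * m) + 1 ≤ n →
    ∃ φ : Fin (n * n) → Fin (d * (m * m)) ⊕ K, ∀ x : (Fin (d * (m * m)) → K) × K,
      pull φ x ∈ PerSet K n ↔ x ∈ TrSet K m d

/-- Row PAR: a circuit of depth `n ^ 2 + n + 4` for the graph of the permanent: `1 - s * s` with
`s = sgn (z - per X)`; the sum over the permutations as a balanced tree of depth `n ^ 2`, since
`n ! ≤ 2 ^ (n ^ 2)`. -/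
def ParStatement : Prop :=
  ∀ n : ℕ, ∃ C : MPB1C.Circ (n * n + 1), C.depth ≤ n ^ 2 + n + 4 ∧
    ∀ q : (Fin (n * n) → ℝ) × ℝ, q ∈ PerSet ℝ n ↔
      0 < C.eval (Fin.snoc (α := fun _ => ℝ) q.1 q.2)

end Pool.Agent.Lib.MP_b1c768_lc.PC
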