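import Pool.Agent.Lib.MP_641cb6_lc.CD.Final2
import Pool.Agent.Lib.MP_641cb6_lc.CD.Levels2
import Pool.Agent.Lib.MP_641cb6_lc.CD.Chain
import Pool.Agent.Lib.MP_641cb6_lc.CD.Struc2
import Pool.Agent.Lib.MP_641cb6_lc.CD.Subst2
import Pool.Agent.Lib.MP_641cb6_lc.CD.Num2
import Pool.Agent.Lib.MP_b1c768_lc.PC.Defs

/-!
# The permanent is hard for trees with bounded nesting
-/

set_option autoImplicit false

namespace Pool.Agent.Lib.MP_b1c768_lc.PC

open Pool.Agent.Lib.MP_641cb6_lc.KG (GTree Branches Decides deps)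
open Pool.Agent.Lib.MP_641cb6_lc.CD

theorem Hard2.anti {K : Type} [Field K] {P : K → Prop} {n D M M' r : ℕ}
    {S : Set ((Fin n → K) × K)} (h : Hard2 P S D M' r) (hM : M ≤ M') : Hard2 P S D M r := by
  intro N T Φ hT hdec
  obtain ⟨u, x, k, i, a, h1, h2, h3⟩ := h N T Φ
    (fun u g s F i hh => (hT u g s F i hh).imp (fun h => h.trans hM) id) hdec
  exact ⟨u, x, k, i, a, h1, h2, h3.imp id fun h => lt_of_le_of_lt hM h⟩

/-- the trace is hard -/
theorem hard_tr {K : Type} [RCLike K] {P : K → Prop} (hP : Kind P) (D c v r : ℕ) (hc : 1 ≤ c)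
    (hv : 2 ^ (16 * dd D c ^ 2) ≤ v) (hr : r ^ dd D c ≤ v ^ c) :
    ∃ m, 0 < m ∧ dd D c * (m * m) ≤ v ∧ Hard2 P (TrSet K m (dd D c)) D (v ^ c) r := by
  have hlev := level2Statement rankStatement derStatement (claimStatement rankStatement)
    (chainStatement rankStatement)
  have hstr := struc2 derStatement
  obtain ⟨m, lam, h1, h3, h4, h5, h6, h7⟩ := num2Statement D c v hc hv
  have hv1 : 1 ≤ v := le_trans Nat.one_le_two_pow hv
  have hdd : 1 ≤ dd D c := by
    unfold dd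
    exact Nat.one_le_pow _ _ (by positivity)
  have hrM : (r + 1) ^ dd D c ≤ v ^ c * 2 ^ (dd D c ^ 2) := by
    have h9 : (r + 1) ^ dd D c ≤ v ^ c * 2 ^ dd D c := by
      rcases Nat.eq_zero_or_pos r with h10 | h10
      · rw [h10, zero_add, one_pow]
        exact Nat.mul_pos (Nat.pow_pos hv1) (by positivity)
      · calc (r + 1) ^ dd D c ≤ (r * 2) ^ dd D c := Nat.pow_le_pow_left (by omega) _
          _ = r ^ dd D c * 2 ^ dd D c := by rw [mul_pow]
          _ ≤ v ^ c * 2 ^ dd D c := Nat.mul_le_mul_right _ hr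
    refine h9.trans (Nat.mul_le_mul_left _ (Nat.pow_le_pow_right (by norm_num) ?_))
    calc dd D c = dd D c ^ 1 := (pow_one _).symm
      _ ≤ dd D c ^ 2 := Nat.pow_le_pow_right hdd (by norm_num)
  refine ⟨m, lt_of_lt_of_le (by positivity) h3, h4, ?_⟩
  refine core2 hlev hstr hP D (dd D c) lam (v ^ c) m r h1 (by omega)
    (Nat.one_le_pow _ _ hv1) hrM h3 h5 h6 ?_
  push_cast
  exact h7

theorem hard_per (hR : PRedStatement) {K : Type} [RCLike K] {P : K → Prop} (hP : Kind P)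
    (D c n r : ℕ) (hn : 2 ^ (17 * dd D (c + 1) ^ 2) ≤ n) (hr : r ^ dd D (c + 1) ≤ n ^ c) :
    Hard2 P (PerSet K n) D (n ^ c) r := by
  set d := dd D (c + 1) with hd
  have hcd : c + 1 ≤ d := by
    rw [hd]
    unfold dd
    have h1 : c + 1 ≤ 4096 * (c + 1 + 1) * (D + 1) := by nlinarith [Nat.zero_le D, Nat.zero_le c]
    exact h1.trans (Nat.le_self_pow (by positivity) _)
  have hd2 : d ≤ d ^ 2 := Nat.le_self_pow (by norm_num) _
  have hbig : 2 ^ (16 * d ^ 2 + 1) ≤ n :=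
    le_trans (Nat.pow_le_pow_right (by norm_num) (by omega)) hn
  rw [pow_succ] at hbig
  have hbig2 : 2 * 2 ^ (16 * d ^ 2) < n := by
    refine lt_of_lt_of_le ?_ hn
    rw [← pow_succ']
    refine Nat.pow_lt_pow_right (by norm_num) ?_
    have : 2 ≤ d := by
      rw [hd]
      unfold dd
      have h1 : 2 ≤ 4096 * (c + 1 + 1) * (D + 1) := by nlinarith [Nat.zero_le D, Nat.zero_le c]
      exact h1.trans (Nat.le_self_pow (by positivity) _)
    nlinarith
  set v := (n - 1) / 2 with hv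
  have hv0 : 2 ^ (16 * d ^ 2) ≤ v := by omega
  have hn4 : n ≤ 4 * v := by
    have : 1 ≤ v := le_trans Nat.one_le_two_pow hv0
    omega
  have hnv : n ^ c ≤ v ^ (c + 1) := by
    have h4 : 4 ^ c ≤ v := by
      refine le_trans ?_ hv0
      calc (4 : ℕ) ^ c = 2 ^ (2 * c) := by rw [pow_mul]; norm_num
        _ ≤ _ := Nat.pow_le_pow_right (by norm_num) (by nlinarith)
    calc n ^ c ≤ (4 * v) ^ c := Nat.pow_le_pow_left hn4 c
      _ = 4 ^ c * v ^ c := mul_pow _ _ _
      _ ≤ v * v ^ c := Nat.mul_le_mul_right _ h4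
      _ = v ^ (c + 1) := (pow_succ' _ _).symm
  obtain ⟨m, hm0, hm, hh⟩ := hard_tr hP D (c + 1) v r (by omega) hv0 (hr.trans hnv)
  rw [← hd] at hm hh
  have hmn : (d + 1) * (m * m) + 1 ≤ n := by
    have h1 : m * m ≤ d * (m * m) := Nat.le_mul_of_pos_left _ (by omega)
    have h2 : (d + 1) * (m * m) = d * (m * m) + m * m := by ring
    omega
  obtain ⟨φ, hφ⟩ := hR K m d n hmn
  have hset : {x | pull φ x ∈ PerSet K n} = TrSet K m d := by
    ext x
    exact hφ x
  refine Hard2.anti (Hard2.of_pull subst2Statement φ ?_) hnv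
  rw [hset]
  exact hh

end Pool.Agent.Lib.MP_b1c768_lc.PC
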