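import Pool.Agent.Lib.MP_641cb6_lc.CD.Final3
import Pool.Agent.Lib.MP_641cb6_lc.CD.Sem3
import Pool.Agent.Lib.MP_641cb6_lc.CD.Stat3
import Pool.Agent.Lib.MP_b1c768_lc.PC.Final

/-!
# The permanent is hard for trees with boundedly many alternations
-/

set_option autoImplicit false

namespace Pool.Agent.Lib.MP_b1c768_lc.PC

open Pool.Agent.Lib.MP_641cb6_lc.CD

theorem hard3_per (hR : PRedStatement) {K : Type} [RCLike K] {P : K → Prop} (hP : Kind P)
    (D c n r : ℕ) (hn : 2 ^ (17 * dd D (2 * c + 2) ^ 2) ≤ n)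
    (hr : r ^ dd D (2 * c + 2) ≤ n ^ c) : Hard3 P (PerSet K n) D (n ^ c) r := by
  have hdd : 1 ≤ dd D (2 * c + 2) := by
    unfold dd
    exact Nat.one_le_pow _ _ (by positivity)
  have hn2 : 2 ≤ n := by
    refine le_trans ?_ hn
    calc 2 = 2 ^ 1 := rfl
      _ ≤ _ := Nat.pow_le_pow_right (by norm_num) (Nat.succ_le_of_lt (by positivity))
  have hnc : 1 ≤ n ^ c := Nat.one_le_pow _ _ (by omega)
  refine Hard3.of_hard2 (M' := n ^ (2 * c + 1)) semStatement statStatement
    (hard_per hR hP D (2 * c + 1) n r hn ?_) hnc ?_ ?_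
  · exact hr.trans (Nat.pow_le_pow_right (by omega) (by omega))
  · refine le_trans ?_ hr
    exact Nat.le_self_pow (by omega) _
  · have h1 : n ^ (2 * c + 1) = n ^ c * n ^ c * n := by ring
    rw [h1]
    nlinarith

end Pool.Agent.Lib.MP_b1c768_lc.PC
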