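import Pool.Agent.Lib.MP_b1c768_lc.PC.Defs

/-!
# The trace of a product of matrices is a projection of the permanent
-/

set_option autoImplicit false

namespace Pool.Agent.Lib.MP_b1c768_lc.PC

open Pool.Agent.Lib.MP_641cb6_lc.CD (ix mat tr TrSet pull)

namespace PRed19

/-- the indices of the matrix -/
abbrev W (d m k : ℕ) : Type := Option (Fin (d + 1) × Fin m × Fin m) ⊕ Fin k

section

variable {K : Type} [Field K] {d m k : ℕ}

/-- the entries outside the diagonal -/
def edge : W d m k → W d m k → Fin (d * (m * m)) ⊕ K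
  | .inl none, .inl (some (t, a, b)) => if t = 0 ∧ a = b then .inr 1 else .inr 0
  | .inl (some (t, a, b)), .inl (some (t', a', b')) =>
      if h : (t : ℕ) < d ∧ (t' : ℕ) = t + 1 ∧ a' = a then .inl (ix ⟨t, h.1⟩ b b') else .inr 0
  | .inl (some (t, a, b)), .inl none => if (t : ℕ) = d ∧ a = b then .inr 1 else .inr 0
  | _, _ => .inr 0

theorem edge_st (t : Fin (d + 1)) (a b : Fin m) :
    (edge (.inl none : W d m k) (.inl (some (t, a, b))) : Fin (d * (m * m)) ⊕ K) =
      if t = 0 ∧ a = b then .inr 1 else .inr 0 := rfl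

theorem edge_ts (t : Fin (d + 1)) (a b : Fin m) :
    (edge (.inl (some (t, a, b)) : W d m k) (.inl none) : Fin (d * (m * m)) ⊕ K) =
      if (t : ℕ) = d ∧ a = b then .inr 1 else .inr 0 := rfl

theorem edge_tt (t t' : Fin (d + 1)) (a b a' b' : Fin m) :
    (edge (.inl (some (t, a, b)) : W d m k) (.inl (some (t', a', b'))) : Fin (d * (m * m)) ⊕ K) =
      if h : (t : ℕ) < d ∧ (t' : ℕ) = t + 1 ∧ a' = a then .inl (ix ⟨t, h.1⟩ b b')
      else .inr 0 := rfl

/-- the entries -/
def ent (u v : W d m k) : Fin (d * (m * m)) ⊕ K :=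
  if u = v ∧ u ≠ .inl none then .inr 1 else edge u v

/-- the values of the entries outside the diagonal -/
def E (x : Fin (d * (m * m)) → K) (u v : W d m k) : K := Sum.elim x id (edge u v)

/-- the weight of the paths from `u` to `s` -/
def wt (x : Fin (d * (m * m)) → K) : W d m k → K
  | .inl (some (t, a, b)) => ((List.ofFn (mat x)).drop t).prod b a
  | _ => 0

/-- the number of the layer -/
def rho : W d m k → ℕ
  | .inl (some (t, _, _)) => t
  | _ => 0

theorem E_self (x : Fin (d * (m * m)) → K) (u : W d m k) : E x u u = 0 := by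
  rcases u with (_ | ⟨t, a, b⟩) | i
  · rfl
  · unfold E
    rw [edge_tt, dif_neg (by omega)]
    rfl
  · rfl

theorem E_rho (x : Fin (d * (m * m)) → K) {u v : W d m k} (hu : u ≠ .inl none)
    (hv : v ≠ .inl none) (h : E x u v ≠ 0) : rho u < rho v := by
  rcases u with (_ | ⟨t, a, b⟩) | i
  · exact absurd rfl hu
  · rcases v with (_ | ⟨t', a', b'⟩) | j
    · exact absurd rfl hv
    · by_cases h1 : (t : ℕ) < d ∧ (t' : ℕ) = t + 1 ∧ a' = a
      · show (t : ℕ) < t'
        omega
      · refine absurd ?_ h
        unfold E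
        rw [edge_tt, dif_neg h1]
        rfl
    · exact absurd rfl h
  · rcases v with (_ | ⟨t', a', b'⟩) | j <;> exact absurd rfl h

theorem sum_W {R : Type} [AddCommMonoid R] (f : W d m k → R) :
    ∑ v, f v = f (.inl none) + (∑ t, ∑ a, ∑ b, f (.inl (some (t, a, b)))) + ∑ i, f (.inr i) := by
  rw [Fintype.sum_sum_type, Fintype.sum_option, Fintype.sum_prod_type]
  congr 2
  refine Finset.sum_congr rfl fun t _ => ?_
  rw [Fintype.sum_prod_type]

theorem wt_step (x : Fin (d * (m * m)) → K) (t : Fin (d + 1)) (ht : (t : ℕ) < d) (a b : Fin m) :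
    (((List.ofFn (mat x)).drop t).prod b a : K) =
      ∑ c, x (ix ⟨t, ht⟩ b c) * ((List.ofFn (mat x)).drop (t + 1)).prod c a := by
  rw [List.drop_eq_getElem_cons (by simpa using ht), List.prod_cons, Matrix.mul_apply,
    List.getElem_ofFn]
  rfl

theorem wt_eq (x : Fin (d * (m * m)) → K) {u : W d m k} (hu : u ≠ .inl none) :
    wt x u = E x u (.inl none) + ∑ v, E x u v * wt x v := by
  rcases u with (_ | ⟨t, a, b⟩) | i
  · exact absurd rfl hu
  · rw [sum_W]
    have h0 : E x (.inl (some (t, a, b)) : W d m k) (.inl none) * wt x (.inl none : W d m k) = 0 :=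
      mul_zero _
    have h1 : ∑ i : Fin k, E x (.inl (some (t, a, b)) : W d m k) (.inr i) *
        wt x (.inr i : W d m k) = 0 := Finset.sum_eq_zero fun i _ => mul_zero _
    rw [h0, h1, zero_add, add_zero]
    by_cases ht : (t : ℕ) < d
    · have h2 : E x (.inl (some (t, a, b)) : W d m k) (.inl none) = 0 := by
        unfold E
        rw [edge_ts, if_neg (by omega)]
        rfl
      rw [h2, zero_add]
      have ht' : (t : ℕ) + 1 < d + 1 := by omega
      rw [Finset.sum_eq_single (⟨t + 1, ht'⟩ : Fin (d + 1))]
      · rw [Finset.sum_eq_single a]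
        · show ((List.ofFn (mat x)).drop t).prod b a = _
          rw [wt_step x t ht]
          refine Finset.sum_congr rfl fun c _ => ?_
          have h3 : E x (.inl (some (t, a, b)) : W d m k)
              (.inl (some ((⟨t + 1, ht'⟩ : Fin (d + 1)), a, c))) = x (ix ⟨t, ht⟩ b c) := by
            unfold E
            rw [edge_tt, dif_pos ⟨ht, rfl, rfl⟩]
            rfl
          rw [h3]
          rfl
        · intro a' _ ha'
          refine Finset.sum_eq_zero fun c _ => ?_
          have h3 : E x (.inl (some (t, a, b)) : W d m k)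
              (.inl (some ((⟨t + 1, ht'⟩ : Fin (d + 1)), a', c))) = 0 := by
            unfold E
            rw [edge_tt, dif_neg (by tauto)]
            rfl
          rw [h3, zero_mul]
        · intro h
          exact absurd (Finset.mem_univ _) h
      · intro t' _ ht''
        refine Finset.sum_eq_zero fun a' _ => Finset.sum_eq_zero fun c _ => ?_
        have h3 : E x (.inl (some (t, a, b)) : W d m k)
            (.inl (some (t', a', c))) = 0 := by
          unfold E
          rw [edge_tt, dif_neg (by
            rintro ⟨-, h, -⟩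
            exact ht'' (Fin.ext h))]
          rfl
        rw [h3, zero_mul]
      · intro h
        exact absurd (Finset.mem_univ _) h
    · have htd : (t : ℕ) = d := by omega
      have h2 : ∑ t', ∑ a', ∑ b', E x (.inl (some (t, a, b)) : W d m k)
          (.inl (some (t', a', b'))) * wt x (.inl (some (t', a', b')) : W d m k) = 0 := by
        refine Finset.sum_eq_zero fun t' _ => Finset.sum_eq_zero fun a' _ =>
          Finset.sum_eq_zero fun b' _ => ?_
        have h3 : E x (.inl (some (t, a, b)) : W d m k)
            (.inl (some (t', a', b'))) = 0 := by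
          unfold E
          rw [edge_tt, dif_neg (by omega)]
          rfl
        rw [h3, zero_mul]
      rw [h2, add_zero]
      show ((List.ofFn (mat x)).drop t).prod b a = _
      rw [List.drop_of_length_le (by simp; omega), List.prod_nil, Matrix.one_apply]
      unfold E
      rw [edge_ts]
      by_cases hab : a = b
      · rw [if_pos hab.symm, if_pos ⟨htd, hab⟩]
        rfl
      · rw [if_neg (fun h => hab h.symm), if_neg (fun h => hab h.2)]
        rfl
  · symm
    rw [show E x (.inr i : W d m k) (.inl none) = 0 from rfl, zero_add]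
    refine Finset.sum_eq_zero fun v _ => ?_
    rcases v with (_ | ⟨t', a', b'⟩) | j <;> exact zero_mul _

theorem start_eq (x : Fin (d * (m * m)) → K) :
    ∑ v, E x (.inl none : W d m k) v * wt x v = tr (mat x) := by
  rw [sum_W]
  have h0 : E x (.inl none : W d m k) (.inl none) * wt x (.inl none : W d m k) = 0 :=
    mul_zero _
  have h1 : ∑ i : Fin k, E x (.inl none : W d m k) (.inr i) *
      wt x (.inr i : W d m k) = 0 := Finset.sum_eq_zero fun i _ => mul_zero _
  rw [h0, h1, zero_add, add_zero, Finset.sum_eq_single (0 : Fin (d + 1))]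
  · unfold tr Matrix.trace
    refine Finset.sum_congr rfl fun a _ => ?_
    rw [Finset.sum_eq_single a]
    · have h3 : E x (.inl none : W d m k) (.inl (some ((0 : Fin (d + 1)), a, a))) = 1 := by
        unfold E
        rw [edge_st, if_pos ⟨rfl, rfl⟩]
        rfl
      rw [h3, one_mul]
      rfl
    · intro b _ hb
      have h3 : E x (.inl none : W d m k) (.inl (some ((0 : Fin (d + 1)), a, b))) = 0 := by
        unfold E
        rw [edge_st, if_neg (fun h => hb h.2.symm)]
        rfl
      rw [h3, zero_mul]
    · intro h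
      exact absurd (Finset.mem_univ _) h
  · intro t _ ht
    refine Finset.sum_eq_zero fun a _ => Finset.sum_eq_zero fun b _ => ?_
    have h3 : E x (.inl none : W d m k) (.inl (some (t, a, b))) = 0 := by
      unfold E
      rw [edge_st, if_neg (fun h => ht h.1)]
      rfl
    rw [h3, zero_mul]
  · intro h
    exact absurd (Finset.mem_univ _) h

end

end PRed19

open PRed19 in
theorem pRed (hP : PathsStatement) : PRedStatement := by
  intro K _ m d n hn
  classical
  have hcard : Fintype.card (Fin n) = Fintype.card (W d m (n - ((d + 1) * (m * m) + 1))) := by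
    simp only [W, Fintype.card_sum, Fintype.card_option, Fintype.card_prod, Fintype.card_fin]
    omega
  obtain ⟨e⟩ : Nonempty (Fin n ≃ W d m (n - ((d + 1) * (m * m) + 1))) :=
    ⟨Fintype.equivOfCardEq hcard⟩
  refine ⟨fun l => ent (e (finProdFinEquiv.symm l).1) (e (finProdFinEquiv.symm l).2), ?_⟩
  intro x
  have hM : ∀ i j, sq (pull (fun l => ent (e (finProdFinEquiv.symm l).1)
      (e (finProdFinEquiv.symm l).2)) x).1 i j = Sum.elim x.1 id (ent (e i) (e j)) := by
    intro i j
    show Sum.elim x.1 id (ent (e (finProdFinEquiv.symm (finProdFinEquiv (i, j))).1)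
      (e (finProdFinEquiv.symm (finProdFinEquiv (i, j))).2)) = _
    rw [Equiv.symm_apply_apply]
  have hs : ∀ i, i ≠ e.symm (.inl none) → e i ≠ .inl none := by
    intro i hi h
    exact hi (by rw [← h, Equiv.symm_apply_apply])
  have hne : ∀ i j, i ≠ j → Sum.elim x.1 id (ent (e i) (e j)) = E x.1 (e i) (e j) := by
    intro i j hij
    unfold ent E
    rw [if_neg]
    rintro ⟨h, -⟩
    exact hij (e.injective h)
  have hper := hP (Fin n) K (sq (pull (fun l => ent (e (finProdFinEquiv.symm l).1)
      (e (finProdFinEquiv.symm l).2)) x).1) (e.symm (.inl none)) (fun i => rho (e i))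
      (fun i => wt x.1 (e i)) ?_ ?_ ?_
  · show x.2 = _ ↔ x.2 = _
    rw [hper]
    have h1 : sq (pull (fun l => ent (e (finProdFinEquiv.symm l).1)
      (e (finProdFinEquiv.symm l).2)) x).1 (e.symm (.inl none)) (e.symm (.inl none)) = 0 := by
      rw [hM]
      unfold ent
      rw [if_neg (by simp)]
      rw [Equiv.apply_symm_apply]
      rfl
    rw [h1, zero_add]
    have h2 : ∑ j ∈ Finset.univ.erase (e.symm (.inl none)),
        sq (pull (fun l => ent (e (finProdFinEquiv.symm l).1)
          (e (finProdFinEquiv.symm l).2)) x).1 (e.symm (.inl none)) j * wt x.1 (e j) =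
        ∑ j, E x.1 (.inl none) (e j) * wt x.1 (e j) := by
      rw [← Finset.sum_erase (s := Finset.univ) (a := e.symm (.inl none))
        (f := fun j => E x.1 (.inl none) (e j) * wt x.1 (e j))
        (by rw [Equiv.apply_symm_apply]; exact mul_zero _)]
      refine Finset.sum_congr rfl fun j hj => ?_
      rw [hM, hne _ _ (Finset.ne_of_mem_erase hj).symm, Equiv.apply_symm_apply]
    rw [h2, Equiv.sum_comp e (fun v => E x.1 (.inl none) v * wt x.1 v), start_eq]
  · intro i hi
    rw [hM]
    unfold ent
    rw [if_pos ⟨rfl, hs i hi⟩]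
    rfl
  · intro i j hi hj hij h
    rw [hM, hne i j hij] at h
    exact E_rho x.1 (hs i hi) (hs j hj) h
  · intro i hi
    rw [hM, hne i _ hi, Equiv.apply_symm_apply, wt_eq x.1 (hs i hi)]
    congr 1
    rw [← Equiv.sum_comp e (fun v => E x.1 (e i) v * wt x.1 v)]
    rw [← Finset.sum_erase (s := Finset.univ) (a := e.symm (.inl none))
      (f := fun j => E x.1 (e i) (e j) * wt x.1 (e j))
      (by rw [Equiv.apply_symm_apply]; exact mul_zero _)]
    rw [← Finset.sum_erase (s := Finset.univ.erase (e.symm (.inl none))) (a := i)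
      (f := fun j => E x.1 (e i) (e j) * wt x.1 (e j))
      (by rw [E_self, zero_mul])]
    refine Finset.sum_congr rfl fun j hj => ?_
    rw [hM, hne i j (Finset.ne_of_mem_erase hj).symm]

end Pool.Agent.Lib.MP_b1c768_lc.PC
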