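import Pool.Agent.Lib.MP_b1c768_lc.PC.Defs

/-!
# The graph of the permanent is decided by circuits of small depth
-/

set_option autoImplicit false

namespace Pool.Agent.Lib.MP_b1c768_lc.PC

open MPB1C (Circ)

namespace Par

/-- the product of a list of circuits -/
def pr {m : ℕ} : List (Circ m) → Circ m
  | [] => .const 1
  | c :: l => .mul c (pr l)

theorem pr_eval {m : ℕ} (x : Fin m → ℝ) (l : List (Circ m)) :
    (pr l).eval x = (l.map (Circ.eval x)).prod := by
  induction l with
  | nil => rfl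
  | cons c l ih =>
    rw [List.map_cons, List.prod_cons, ← ih]
    rfl

theorem pr_depth {m : ℕ} (l : List (Circ m)) (h : ∀ c ∈ l, c.depth = 0) :
    (pr l).depth ≤ l.length := by
  induction l with
  | nil => exact le_refl _
  | cons c l ih =>
    have h1 := ih fun c hc => h c (List.mem_cons_of_mem _ hc)
    have h2 := h c List.mem_cons_self
    show max c.depth (pr l).depth + 1 ≤ l.length + 1
    omega

theorem bsum {m k : ℕ} (L : ℕ) (l : List (Circ m)) (hl : l.length ≤ 2 ^ L)
    (h : ∀ c ∈ l, c.depth ≤ k) :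
    ∃ C : Circ m, C.depth ≤ L + k ∧ ∀ x, C.eval x = (l.map (Circ.eval x)).sum := by
  induction L generalizing l with
  | zero =>
    rcases l with _ | ⟨c, _ | ⟨c', l⟩⟩
    · exact ⟨.const 0, Nat.zero_le _, fun x => rfl⟩
    · refine ⟨c, ?_, fun x => ?_⟩
      · have := h c List.mem_cons_self
        omega
      · simp
    · simp at hl
  | succ L ih =>
    rw [pow_succ] at hl
    obtain ⟨C1, h1, h2⟩ := ih (l.take (2 ^ L)) (by rw [List.length_take]; omega)
      fun c hc => h c (List.mem_of_mem_take hc)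
    obtain ⟨C2, h3, h4⟩ := ih (l.drop (2 ^ L)) (by rw [List.length_drop]; omega)
      fun c hc => h c (List.mem_of_mem_drop hc)
    refine ⟨.add C1 C2, ?_, fun x => ?_⟩
    · show max C1.depth C2.depth + 1 ≤ _
      omega
    · show C1.eval x + C2.eval x = _
      rw [h2, h4, ← List.sum_append, ← List.map_append, List.take_append_drop]

/-- the circuit of one term of the permanent -/
def term (n : ℕ) (σ : Equiv.Perm (Fin n)) : Circ (n * n + 1) :=
  pr (List.ofFn fun i : Fin n => .inp (finProdFinEquiv (σ i, i)).castSucc)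

theorem term_depth (n : ℕ) (σ : Equiv.Perm (Fin n)) : (term n σ).depth ≤ n := by
  refine (pr_depth _ ?_).trans ?_
  · intro c hc
    obtain ⟨i, rfl⟩ := (List.mem_ofFn' _ _).1 hc
    rfl
  · rw [List.length_ofFn]

theorem term_eval (n : ℕ) (σ : Equiv.Perm (Fin n)) (q : (Fin (n * n) → ℝ) × ℝ) :
    (term n σ).eval (Fin.snoc (α := fun _ => ℝ) q.1 q.2) = ∏ i, sq q.1 (σ i) i := by
  unfold term
  rw [pr_eval, List.map_ofFn, List.prod_ofFn]
  refine Finset.prod_congr rfl fun i _ => ?_
  show (Fin.snoc (α := fun _ => ℝ) q.1 q.2 : Fin (n * n + 1) → ℝ) (Fin.castSucc _) = _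
  rw [Fin.snoc_castSucc]
  rfl

end Par

open Par in
theorem parStatement : ParStatement := by
  intro n
  obtain ⟨C, h1, h2⟩ := bsum (k := n) (n ^ 2)
    ((Finset.univ : Finset (Equiv.Perm (Fin n))).toList.map (term n)) (by
      rw [List.length_map, Finset.length_toList, Finset.card_univ, Fintype.card_perm,
        Fintype.card_fin]
      refine (Nat.factorial_le_pow n).trans ?_
      rw [_root_.sq, pow_mul]
      exact Nat.pow_le_pow_left Nat.lt_two_pow_self.le n) (by
      intro c hc
      obtain ⟨σ, -, rfl⟩ := List.mem_map.1 hc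
      exact term_depth n σ)
  have h3 : ∀ q : (Fin (n * n) → ℝ) × ℝ,
      C.eval (Fin.snoc (α := fun _ => ℝ) q.1 q.2) = (sq q.1).permanent := by
    intro q
    rw [h2, List.map_map]
    refine (Finset.sum_map_toList (Finset.univ : Finset (Equiv.Perm (Fin n)))
      (Circ.eval (Fin.snoc (α := fun _ => ℝ) q.1 q.2) ∘ term n)).trans ?_
    exact Finset.sum_congr rfl fun σ _ => term_eval n σ q
  refine ⟨.sub (.const 1) (.mul (.sgn (.sub (.inp (Fin.last _)) C))
    (.sgn (.sub (.inp (Fin.last _)) C))), ?_, fun q => ?_⟩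
  · simp only [Circ.depth]
    omega
  · have h4 : Circ.eval (Fin.snoc (α := fun _ => ℝ) q.1 q.2)
        (.sub (.inp (Fin.last _)) C : Circ (n * n + 1)) = q.2 - (sq q.1).permanent := by
      rw [← h3 q]
      show (Fin.snoc (α := fun _ => ℝ) q.1 q.2 : Fin (n * n + 1) → ℝ) (Fin.last _) - _ = _
      rw [Fin.snoc_last]
    show _ ↔ 0 < (1 : ℝ) - ((SignType.sign (Circ.eval (Fin.snoc (α := fun _ => ℝ) q.1 q.2)
        (.sub (.inp (Fin.last _)) C : Circ (n * n + 1))) : SignType) : ℝ) *
      ((SignType.sign (Circ.eval (Fin.snoc (α := fun _ => ℝ) q.1 q.2)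
        (.sub (.inp (Fin.last _)) C : Circ (n * n + 1))) : SignType) : ℝ)
    rw [h4]
    show q.2 = (sq q.1).permanent ↔ _
    rw [← sub_eq_zero]
    generalize q.2 - (sq q.1).permanent = t
    rcases lt_trichotomy t 0 with ht | ht | ht
    · rw [sign_neg ht]
      simp [ht.ne]
    · rw [ht]
      simp
    · rw [sign_pos ht]
      simp [ht.ne']

end Pool.Agent.Lib.MP_b1c768_lc.PC
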