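import Pool.Agent.Lib.MP_b1c768_lc.PC.Defs
import Mathlib.LinearAlgebra.Matrix.Block
import Mathlib.LinearAlgebra.Matrix.Adjugate
import Mathlib.GroupTheory.Perm.Cycle.Basic

/-!
# The permanent of a path matrix (by a determinant)
-/

set_option autoImplicit false

namespace Pool.Agent.Lib.MP_b1c768_lc.PC.H90

open Finset Equiv Matrix

variable {V : Type} [Fintype V] [DecidableEq V] {R : Type} [CommRing R]

/-- the matrix with the entries of the rows `≠ s` outside of the diagonal negated -/
def neg (M : Matrix V V R) (s : V) : Matrix V V R :=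
  fun a b => if a = s ∨ a = b then M a b else -M a b

/-- the permutations with a product `≠ 0` are cycles through `s` -/
theorem same {M : Matrix V V R} {s : V} {ρ : V → ℕ}
    (hρ : ∀ i j, i ≠ s → j ≠ s → i ≠ j → M i j ≠ 0 → ρ i < ρ j)
    {σ : Perm V} (h : ∀ i, M (σ i) i ≠ 0) {x : V} (hx : σ x ≠ x) : σ.SameCycle x s := by
  by_contra hc
  have h1 : ∀ n : ℕ, (σ ^ n) x ≠ s := fun n hn => hc ⟨n, by rw [zpow_natCast]; exact hn⟩
  have h2 : ∀ n : ℕ, ρ ((σ ^ n) x) + n ≤ ρ x := by
    intro n
    induction n with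
    | zero => simp
    | succ n ih =>
      have h3 : (σ ^ (n + 1)) x = σ ((σ ^ n) x) := by rw [pow_succ']; rfl
      have h4 : σ ((σ ^ n) x) ≠ (σ ^ n) x := by
        intro h5
        have h6 : σ ((σ ^ n) x) = (σ ^ n) (σ x) := by
          rw [← Perm.mul_apply, ← Perm.mul_apply, ← pow_succ, ← pow_succ']
        rw [h6] at h5
        exact hx ((σ ^ n).injective h5)
      have h5 := hρ (σ ((σ ^ n) x)) ((σ ^ n) x) (h3 ▸ h1 (n + 1)) (h1 n) h4 (h _)
      rw [h3]
      omega
  have := h2 (ρ x + 1)
  omega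

theorem sign_eq {M : Matrix V V R} {s : V} {ρ : V → ℕ}
    (hρ : ∀ i j, i ≠ s → j ≠ s → i ≠ j → M i j ≠ 0 → ρ i < ρ j)
    {σ : Perm V} (h : ∀ i, M (σ i) i ≠ 0) :
    ∏ i, (if σ i = s ∨ σ i = i then (1 : ℤˣ) else -1) = Perm.sign σ := by
  by_cases h1 : σ = 1
  · subst h1
    simp
  have h2 : ∃ x, σ x ≠ x := by
    by_contra hc
    push Not at hc
    exact h1 (Equiv.ext hc)
  obtain ⟨x, hx⟩ := h2
  have hs : σ s ≠ s := by
    intro h3
    have h4 := same hρ h hx
    have h5 : x = s := (h4.symm.eq_of_left h3).symm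
    exact hx (h5 ▸ h3)
  have hcy : σ.IsCycle := ⟨s, hs, fun y hy => (same hρ h hy).symm⟩
  rw [hcy.sign, Finset.prod_ite, Finset.prod_const_one, one_mul, Finset.prod_const]
  have h3 : (univ.filter fun i => ¬ (σ i = s ∨ σ i = i)) = σ.support.erase (σ.symm s) := by
    ext i
    simp only [mem_filter, mem_univ, true_and, mem_erase, Perm.mem_support, not_or]
    constructor
    · rintro ⟨h4, h5⟩
      exact ⟨fun h6 => h4 (by rw [h6, Equiv.apply_symm_apply]), h5⟩
    · rintro ⟨h4, h5⟩
      exact ⟨fun h6 => h4 (by rw [← h6, Equiv.symm_apply_apply]), h5⟩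
  have h4 : σ.symm s ∈ σ.support := by
    rw [Perm.mem_support, Equiv.apply_symm_apply]
    intro h5
    have h6 := congrArg σ h5
    rw [Equiv.apply_symm_apply] at h6
    exact hs h6
  rw [h3, card_erase_of_mem h4]
  have h5 : 0 < #σ.support := card_pos.2 ⟨_, h4⟩
  obtain ⟨n, hn⟩ : ∃ n, #σ.support = n + 1 := ⟨#σ.support - 1, by omega⟩
  rw [hn, Nat.add_sub_cancel, pow_succ]
  simp

theorem per_eq_det {M : Matrix V V R} {s : V} {ρ : V → ℕ}
    (hρ : ∀ i j, i ≠ s → j ≠ s → i ≠ j → M i j ≠ 0 → ρ i < ρ j) :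
    M.permanent = (neg M s).det := by
  rw [Matrix.det_apply', Matrix.permanent]
  refine sum_congr rfl fun σ _ => ?_
  by_cases h : ∀ i, M (σ i) i ≠ 0
  · have h1 : ∀ i, neg M s (σ i) i =
        (((if σ i = s ∨ σ i = i then (1 : ℤˣ) else -1 : ℤˣ) : ℤ) : R) * M (σ i) i := by
      intro i
      unfold neg
      split_ifs <;> simp
    rw [prod_congr rfl fun i _ => h1 i, prod_mul_distrib, ← Int.cast_prod, ← Units.coe_prod,
      sign_eq hρ h, ← mul_assoc, ← Int.cast_mul, ← Units.val_mul, Int.units_mul_self]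
    simp
  · push Not at h
    obtain ⟨i, hi⟩ := h
    rw [prod_eq_zero (f := fun i => M (σ i) i) (mem_univ i) hi,
      prod_eq_zero (f := fun i => neg M s (σ i) i) (mem_univ i), mul_zero]
    show neg M s (σ i) i = 0
    unfold neg
    rw [hi]
    simp

theorem mulVec_eq {M : Matrix V V R} {s : V} {w : V → R} (h1 : ∀ i, i ≠ s → M i i = 1)
    (hw : ∀ i, i ≠ s → w i = M i s + ∑ j ∈ (univ.erase s).erase i, M i j * w j) :
    neg M s *ᵥ (fun i => if i = s then 1 else w i) =
      (M s s + ∑ j ∈ univ.erase s, M s j * w j) • Pi.single s (1 : R) := by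
  funext i
  have h0 : (neg M s *ᵥ (fun i => if i = s then 1 else w i)) i =
      neg M s i s + ∑ j ∈ univ.erase s, neg M s i j * w j := by
    rw [Matrix.mulVec, dotProduct, ← add_sum_erase _ _ (mem_univ s), if_pos rfl, mul_one]
    congr 1
    exact sum_congr rfl fun j hj => by rw [if_neg (ne_of_mem_erase hj)]
  rw [h0, Pi.smul_apply, smul_eq_mul]
  by_cases hi : i = s
  · subst hi
    rw [Pi.single_eq_same, mul_one]
    unfold neg
    simp
  · rw [Pi.single_eq_of_ne hi, mul_zero, ← add_sum_erase _ _ (mem_erase.2 ⟨hi, mem_univ i⟩)]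
    have h2 : neg M s i i = 1 := by
      unfold neg
      rw [if_pos (Or.inr rfl), h1 i hi]
    have h3 : neg M s i s = -M i s := by
      unfold neg
      rw [if_neg (not_or.2 ⟨hi, hi⟩)]
    have h4 : ∑ j ∈ (univ.erase s).erase i, neg M s i j * w j =
        -∑ j ∈ (univ.erase s).erase i, M i j * w j := by
      rw [← sum_neg_distrib]
      refine sum_congr rfl fun j hj => ?_
      unfold neg
      rw [if_neg (not_or.2 ⟨hi, (ne_of_mem_erase hj).symm⟩), neg_mul]
    rw [h2, h3, h4, hw i hi]
    ring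

theorem det_upd {M : Matrix V V R} {s : V} {ρ : V → ℕ} (h1 : ∀ i, i ≠ s → M i i = 1)
    (hρ : ∀ i j, i ≠ s → j ≠ s → i ≠ j → M i j ≠ 0 → ρ i < ρ j) :
    ((neg M s).updateCol s (Pi.single s 1)).det = 1 := by
  classical
  set N := (neg M s).updateCol s (Pi.single s 1) with hN
  have hs : ∀ i, N i s = if i = s then 1 else 0 := by
    intro i
    rw [hN, updateCol_self, Pi.single_apply]
  have hn : ∀ i j, i ≠ s → j ≠ s → i ≠ j → N i j = -M i j := by
    intro i j hi hj hij
    rw [hN, updateCol_ne hj]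
    unfold neg
    rw [if_neg (not_or.2 ⟨hi, hij⟩)]
  have hd : ∀ i, N i i = 1 := by
    intro i
    by_cases hi : i = s
    · subst hi
      rw [hs, if_pos rfl]
    · rw [hN, updateCol_ne hi]
      unfold neg
      rw [if_pos (Or.inr rfl), h1 i hi]
  let b : V → ℕ := fun i => if i = s then 0 else ρ i + 1
  have hb : N.BlockTriangular b := by
    intro i j hij
    have hi : i ≠ s := by
      intro h
      simp [b, h] at hij
    by_cases hj : j = s
    · rw [hj, hs, if_neg hi]
    · simp only [b, if_neg hi, if_neg hj] at hij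
      have hne : i ≠ j := by
        rintro rfl
        omega
      rw [hn i j hi hj hne, neg_eq_zero]
      by_contra h0
      have := hρ i j hi hj hne h0
      omega
  rw [hb.det]
  refine prod_eq_one fun a _ => ?_
  have : N.toSquareBlock b a = 1 := by
    ext ⟨i, hi⟩ ⟨j, hj⟩
    rw [Matrix.toSquareBlock_def, Matrix.of_apply, Matrix.one_apply]
    by_cases hij : i = j
    · subst hij
      rw [if_pos rfl]
      exact hd i
    · rw [if_neg (fun h => hij (congrArg Subtype.val h))]
      show N i j = 0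
      have h2 : b i = b j := hi.trans hj.symm
      by_cases his : i = s
      · have hjs : j ≠ s := fun h => hij (his.trans h.symm)
        simp [b, his, hjs] at h2
      · by_cases hjs : j = s
        · simp [b, his, hjs] at h2
        · rw [hn i j his hjs hij, neg_eq_zero]
          by_contra h0
          have h3 := hρ i j his hjs hij h0
          simp [b, his, hjs] at h2
          omega
  rw [this, Matrix.det_one]

end H90

open H90 in
/-- **Row PATHS.** -/
theorem pathsStatement : PathsStatement := by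
  intro V _ _ R _ M s ρ w h1 hρ hw
  rw [H90.per_eq_det hρ]
  have h2 := H90.mulVec_eq h1 hw
  set u : V → R := fun i => if i = s then 1 else w i with hu
  have h3 : Matrix.cramer (H90.neg M s) ((H90.neg M s).mulVec u) = (H90.neg M s).det • u := by
    rw [Matrix.cramer_eq_adjugate_mulVec, Matrix.mulVec_mulVec, Matrix.adjugate_mul,
      Matrix.smul_mulVec, Matrix.one_mulVec]
  have h4 := congrFun h3 s
  rw [Matrix.cramer_apply, h2, Matrix.det_updateCol_smul, H90.det_upd h1 hρ, mul_one,
    Pi.smul_apply, smul_eq_mul, hu] at h4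
  simp only [if_true, mul_one] at h4
  exact h4.symm

end Pool.Agent.Lib.MP_b1c768_lc.PC

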